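import Pool.Agent.Run7.h293.MD.Quad

/-!
# Points of `X_0(15)` over imaginary quadratic fields
-/

namespace Pool.Agent.Run7.h293.MD

open WeierstrassCurve

/-- the modular curve `X_0(15)`: `y² = x (x - 9) (x - 25)` -/
def X015 : WeierstrassCurve ℚ := cubic (-34) 225 0

theorem exists_conj (K : Type) [Field K] [NumberField K] (h2 : Module.finrank ℚ K = 2) {n : ℕ}
    (hn : 0 < n) (θ : K) (hθ : θ ^ 2 = -(n : K)) :
    ∃ σ : K →ₐ[ℚ] K, σ θ = -θ ∧ (∀ z, σ (σ z) = z) ∧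
      ∀ z, σ z = z → ∃ q : ℚ, z = algebraMap ℚ K q := by
  have hq : Algebra.IsQuadraticExtension ℚ K := ⟨h2⟩
  have hg : IsGalois ℚ K := inferInstance
  have hc : Nat.card (K ≃ₐ[ℚ] K) = 2 := by rw [IsGalois.card_aut_eq_finrank, h2]
  obtain ⟨τ, σ, hne, huniv⟩ := Nat.card_eq_two_iff.mp hc
  have hall : ∀ ρ : K ≃ₐ[ℚ] K, ρ = τ ∨ ρ = σ := fun ρ => by
    have : ρ ∈ ({τ, σ} : Set (K ≃ₐ[ℚ] K)) := by rw [huniv]; trivial
    simpa using this
  -- a non-trivial automorphism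
  obtain ⟨s, hs, hs1⟩ : ∃ s : K ≃ₐ[ℚ] K, s ≠ 1 ∧ ∀ ρ : K ≃ₐ[ℚ] K, ρ = 1 ∨ ρ = s := by
    rcases hall 1 with h | h
    · exact ⟨σ, fun h0 => hne (by rw [← h, h0]), fun ρ => by rw [h]; exact hall ρ⟩
    · exact ⟨τ, fun h0 => hne (by rw [← h, h0]), fun ρ => by rw [h]; exact (hall ρ).symm⟩
  have hfix : ∀ z, s z = z → ∃ q : ℚ, z = algebraMap ℚ K q := by
    intro z hz
    have h1 : z ∈ (⊥ : IntermediateField ℚ K) := by
      rw [IsGalois.mem_bot_iff_fixed]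
      intro ρ
      rcases hs1 ρ with rfl | rfl
      · rfl
      · exact hz
    obtain ⟨q, hq⟩ := IntermediateField.mem_bot.mp h1
    exact ⟨q, hq.symm⟩
  refine ⟨s.toAlgHom, ?_, ?_, hfix⟩
  · change s θ = -θ
    have h1 : (s θ) ^ 2 = θ ^ 2 := by
      rw [← map_pow, hθ, map_neg, map_natCast]
    rcases sq_eq_sq_iff_eq_or_eq_neg.mp h1 with h | h
    · exfalso
      obtain ⟨q, hq⟩ := hfix θ h
      rw [hq, ← map_pow] at hθ
      have h3 : algebraMap ℚ K (q ^ 2) = algebraMap ℚ K (-(n : ℚ)) := by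
        rw [hθ, map_neg, map_natCast]
      have h4 : q ^ 2 = -(n : ℚ) := (algebraMap ℚ K).injective h3
      have h5 : (0 : ℚ) < n := by exact_mod_cast hn
      nlinarith [sq_nonneg q]
    · exact h
  · intro z
    change s (s z) = z
    rcases hs1 (s * s) with h | h
    · have := DFunLike.congr_fun h z
      exact this
    · exact absurd (mul_eq_left.mp h) hs

/-- The quadratic twist of `X_0(15)` by `-n`: `y² = x (x + 9 n) (x + 25 n)`. -/
def E (n : ℕ) : WeierstrassCurve ℚ :=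
  { a₁ := 0, a₂ := 34 * n, a₃ := 0, a₄ := 225 * (n : ℚ) ^ 2, a₆ := 0 }

theorem delta_cubic (a b : ℚ) : (cubic a b 0).Δ = 16 * b ^ 2 * (a ^ 2 - 4 * b) := by
  simp only [cubic, WeierstrassCurve.Δ, WeierstrassCurve.b₂, WeierstrassCurve.b₄,
    WeierstrassCurve.b₆, WeierstrassCurve.b₈]
  ring

/-- If the twist by `-n` has finitely many rational points, `X_0(15)` has finitely many points
over `ℚ(√(-n))`. -/
theorem finite_X015 (h15 : Finite X015.toAffine.Point) {n : ℕ} (hn : 0 < n)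
    (hE : Finite (E n).toAffine.Point) (K : Type) [Field K] [NumberField K]
    (h2 : Module.finrank ℚ K = 2) (θ : K) (hθ : θ ^ 2 = -(n : K)) :
    Finite (X015⁄K).toAffine.Point := by
  obtain ⟨σ, h3, h4, h5⟩ := exists_conj K h2 hn θ hθ
  have hn0 : (n : ℚ) ≠ 0 := by exact_mod_cast hn.ne'
  have e1 : cubic (-34 * (-(n : ℚ))) (225 * (-(n : ℚ)) ^ 2) (0 * (-(n : ℚ)) ^ 3) = E n := by
    unfold cubic E
    congr 1 <;> ring
  refine finite_quadratic K (-34) 225 0 (-(n : ℚ)) (neg_ne_zero.mpr hn0) h15 ?_ ?_ ?_ θ ?_ σ h3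
    h4 h5
  · rw [e1]; exact hE
  · rw [zero_mul, delta_cubic]
    have e2 : 16 * (225 * (-(n : ℚ)) ^ 2) ^ 2 * ((-34 * (-(n : ℚ))) ^ 2 -
        4 * (225 * (-(n : ℚ)) ^ 2)) = 207360000 * (n : ℚ) ^ 6 := by ring
    rw [e2]
    exact mul_ne_zero (by norm_num) (pow_ne_zero 6 hn0)
  · rw [delta_cubic]; norm_num
  · rw [hθ, map_neg, map_natCast]

end Pool.Agent.Run7.h293.MD
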