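import Mathlib

/-!
# Points of an elliptic curve over a quadratic field

If `y² = x³ + a x² + b x + c` and its quadratic twist by `D` have finitely many rational points, then
the curve has finitely many points over every quadratic field containing a square root of `D`.
-/

namespace Pool.Agent.Run7.h293.MD

open WeierstrassCurve WeierstrassCurve.Affine

/-- `y² = x³ + a x² + b x + c` -/
def cubic (a b c : ℚ) : WeierstrassCurve ℚ := ⟨0, a, 0, b, c⟩

section

variable {K : Type*} [Field K] [Algebra ℚ K] {a b c : ℚ}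

theorem eqn {x y : K} (h : ((cubic a b c)⁄K).toAffine.Nonsingular x y) :
    y ^ 2 = x ^ 3 + algebraMap ℚ K a * x ^ 2 + algebraMap ℚ K b * x + algebraMap ℚ K c := by
  have h1 := h.1
  rw [Affine.equation_iff] at h1
  simp only [cubic, WeierstrassCurve.baseChange, WeierstrassCurve.map, _root_.map_zero, zero_mul,
    add_zero] at h1
  exact h1

theorem negY_eq (x y : K) : ((cubic a b c)⁄K).toAffine.negY x y = -y := by
  simp [Affine.negY, cubic, WeierstrassCurve.baseChange, WeierstrassCurve.map]

theorem neg_pt [DecidableEq K] {x y : K} (h : ((cubic a b c)⁄K).toAffine.Nonsingular x y) :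
    ∃ h', -(Point.some x y h) = (Point.some x (-y) h' : ((cubic a b c)⁄K).Point) := by
  have h1 := Point.neg_some h
  have h2 : ((cubic a b c)⁄K).toAffine.negY x y = -y := negY_eq x y
  refine ⟨by rw [← h2]; exact (nonsingular_neg ..).mpr h, ?_⟩
  rw [h1]
  congr 1

/-- the points killed by two -/
theorem finite_two [DecidableEq K] :
    {P : ((cubic a b c)⁄K).Point | P + P = 0}.Finite := by
  classical
  have h2 : (2 : K) ≠ 0 := by
    have : CharZero K := algebraRat.charZero K
    norm_num
  set p : Polynomial K := Polynomial.X ^ 3 + (Polynomial.C (algebraMap ℚ K a) * Polynomial.X ^ 2 +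
    (Polynomial.C (algebraMap ℚ K b) * Polynomial.X + Polynomial.C (algebraMap ℚ K c))) with hp
  have hp0 : p ≠ 0 := by
    intro h0
    have h1 : p.coeff 3 = 1 := by
      rw [hp]
      simp
    rw [h0] at h1
    simp at h1
  have hfin : {x : K | p.IsRoot x}.Finite := Polynomial.finite_setOfPred_isRoot hp0
  have h3 : ({(0 : ((cubic a b c)⁄K).Point)} ∪
      {P | ∃ x, p.IsRoot x ∧ ∃ h, P = (Point.some x 0 h : ((cubic a b c)⁄K).Point)}).Finite := by
    refine (Set.finite_singleton _).union ?_
    refine Set.Finite.of_finite_image (f := fun P : ((cubic a b c)⁄K).Point =>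
      match P with
      | Point.zero => (0 : K)
      | Point.some x _ _ => x) (hfin.subset ?_) ?_
    · rintro _ ⟨P, ⟨x, hx, h, rfl⟩, rfl⟩
      exact hx
    · rintro P ⟨x, hx, h, rfl⟩ Q ⟨x', hx', h', rfl⟩ hxx
      change x = x' at hxx
      subst hxx
      rfl
  refine h3.subset ?_
  intro P hP
  rcases P with _ | ⟨x, y, h⟩
  · exact Or.inl rfl
  · right
    have h4 : (Point.some x y h : ((cubic a b c)⁄K).Point) = -(Point.some x y h) :=
      eq_neg_of_add_eq_zero_left hP
    obtain ⟨h', h5⟩ := neg_pt h
    rw [h5, Point.some.injEq] at h4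
    have hy : y = 0 := by
      have h6 : (2 : K) * y = 0 := by
        rw [two_mul]
        nth_rewrite 2 [h4.2]
        ring
      exact (mul_eq_zero.mp h6).resolve_left h2
    subst hy
    refine ⟨x, ?_, h, rfl⟩
    have h7 := eqn h
    rw [Polynomial.IsRoot, hp]
    simp only [Polynomial.eval_add, Polynomial.eval_mul, Polynomial.eval_pow, Polynomial.eval_X,
      Polynomial.eval_C]
    linear_combination -h7

end

/-- **Quadratic fields.** -/
theorem finite_quadratic (K : Type*) [Field K] [Algebra ℚ K] (a b c D : ℚ) (hD : D ≠ 0)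
    (h1 : Finite (cubic a b c).toAffine.Point)
    (h2 : Finite (cubic (a * D) (b * D ^ 2) (c * D ^ 3)).toAffine.Point)
    (hns : (cubic (a * D) (b * D ^ 2) (c * D ^ 3)).Δ ≠ 0) (hns' : (cubic a b c).Δ ≠ 0)
    (θ : K) (hθ : θ ^ 2 = algebraMap ℚ K D) (σ : K →ₐ[ℚ] K) (hσ : σ θ = -θ)
    (hσσ : ∀ z, σ (σ z) = z) (hfix : ∀ z, σ z = z → ∃ q : ℚ, z = algebraMap ℚ K q) :
    Finite ((cubic a b c)⁄K).Point := by
  classical
  have hchar : CharZero K := algebraRat.charZero K
  have hθ0 : θ ≠ 0 := by
    rintro rfl
    rw [zero_pow two_ne_zero] at hθ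
    exact hD ((map_eq_zero (algebraMap ℚ K)).mp hθ.symm)
  set s : ((cubic a b c)⁄K).Point →+ ((cubic a b c)⁄K).Point := Point.map σ with hs
  have hss : ∀ P, s (s P) = P := by
    intro P
    rcases P with _ | ⟨x, y, h⟩
    · rfl
    · change Point.some (σ (σ x)) (σ (σ y)) _ = _
      congr 1
      · exact hσσ x
      · exact hσσ y
  -- the rational points
  have hA : {P | s P = P}.Finite := by
    have hf1 : {q : ℚ × ℚ | q.2 ^ 2 = q.1 ^ 3 + a * q.1 ^ 2 + b * q.1 + c}.Finite := by
      have : ∀ q ∈ {q : ℚ × ℚ | q.2 ^ 2 = q.1 ^ 3 + a * q.1 ^ 2 + b * q.1 + c},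
          (cubic a b c).toAffine.Nonsingular q.1 q.2 := by
        intro q hq
        rw [← Affine.equation_iff_nonsingular_of_Δ_ne_zero hns']
        rw [Affine.equation_iff]
        simp only [cubic, zero_mul, add_zero]
        exact hq
      refine Set.Finite.of_finite_image (f := fun q : ℚ × ℚ =>
        if h : (cubic a b c).toAffine.Nonsingular q.1 q.2 then
          (Point.some q.1 q.2 h : (cubic a b c).toAffine.Point) else 0) (Set.toFinite _) ?_
      intro q hq r hr hqr
      simp only [dif_pos (this q hq), dif_pos (this r hr), Point.some.injEq] at hqr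
      exact Prod.ext hqr.1 hqr.2
    have hf2 := hf1.image (fun q : ℚ × ℚ => if h : ((cubic a b c)⁄K).toAffine.Nonsingular
      (algebraMap ℚ K q.1) (algebraMap ℚ K q.2) then
        (Point.some _ _ h : ((cubic a b c)⁄K).Point) else 0)
    refine (hf2.union (Set.finite_singleton (0 : ((cubic a b c)⁄K).Point))).subset ?_
    intro P hP
    rcases P with _ | ⟨x, y, h⟩
    · exact Or.inr rfl
    · left
      have h3 := hP
      change Point.some (σ x) (σ y) _ = Point.some x y h at h3
      rw [Point.some.injEq] at h3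
      obtain ⟨u, hu⟩ := hfix x h3.1
      obtain ⟨v, hv⟩ := hfix y h3.2
      refine ⟨(u, v), ?_, ?_⟩
      · have h4 := eqn h
        rw [hu, hv] at h4
        have : algebraMap ℚ K (v ^ 2) = algebraMap ℚ K (u ^ 3 + a * u ^ 2 + b * u + c) := by
          simpa only [map_pow, map_add, map_mul] using h4
        exact (algebraMap ℚ K).injective this
      · subst hu hv
        simp only [dif_pos h]
  -- the points of the twist
  have hB : {P | s P = -P}.Finite := by
    have hf1 : {q : ℚ × ℚ | q.2 ^ 2 = q.1 ^ 3 + (a * D) * q.1 ^ 2 + (b * D ^ 2) * q.1 +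
        (c * D ^ 3)}.Finite := by
      have : ∀ q ∈ {q : ℚ × ℚ | q.2 ^ 2 = q.1 ^ 3 + (a * D) * q.1 ^ 2 + (b * D ^ 2) * q.1 +
          (c * D ^ 3)},
          (cubic (a * D) (b * D ^ 2) (c * D ^ 3)).toAffine.Nonsingular q.1 q.2 := by
        intro q hq
        rw [← Affine.equation_iff_nonsingular_of_Δ_ne_zero hns]
        rw [Affine.equation_iff]
        simp only [cubic, zero_mul, add_zero]
        exact hq
      refine Set.Finite.of_finite_image (f := fun q : ℚ × ℚ =>
        if h : (cubic (a * D) (b * D ^ 2) (c * D ^ 3)).toAffine.Nonsingular q.1 q.2 then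
          (Point.some q.1 q.2 h : (cubic (a * D) (b * D ^ 2) (c * D ^ 3)).toAffine.Point)
            else 0) (Set.toFinite _) ?_
      intro q hq r hr hqr
      simp only [dif_pos (this q hq), dif_pos (this r hr), Point.some.injEq] at hqr
      exact Prod.ext hqr.1 hqr.2
    have hf2 := hf1.image (fun q : ℚ × ℚ => if h : ((cubic a b c)⁄K).toAffine.Nonsingular
      (algebraMap ℚ K (q.1 / D)) (θ * algebraMap ℚ K (q.2 / D ^ 2)) then
        (Point.some _ _ h : ((cubic a b c)⁄K).Point) else 0)
    refine (hf2.union (Set.finite_singleton (0 : ((cubic a b c)⁄K).Point))).subset ?_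
    intro P hP
    rcases P with _ | ⟨x, y, h⟩
    · exact Or.inr rfl
    · left
      obtain ⟨h', h5⟩ := neg_pt h
      have h3 := hP
      change Point.some (σ x) (σ y) _ = -(Point.some x y h) at h3
      rw [h5, Point.some.injEq] at h3
      obtain ⟨u, hu⟩ := hfix x h3.1
      have h6 : σ (y * θ⁻¹) = y * θ⁻¹ := by
        rw [map_mul, map_inv₀, hσ, h3.2, inv_neg, neg_mul_neg]
      obtain ⟨v, hv⟩ := hfix _ h6
      have hy : y = θ * algebraMap ℚ K v := by
        rw [← hv]; field_simp
      refine ⟨(u * D, v * D ^ 2), ?_, ?_⟩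
      · have h4 := eqn h
        rw [hu, hy, mul_pow, hθ] at h4
        have h7 : algebraMap ℚ K (D * v ^ 2) =
            algebraMap ℚ K (u ^ 3 + a * u ^ 2 + b * u + c) := by
          simpa only [map_pow, map_add, map_mul] using h4
        have h8 : D * v ^ 2 = u ^ 3 + a * u ^ 2 + b * u + c := (algebraMap ℚ K).injective h7
        change (v * D ^ 2) ^ 2 = (u * D) ^ 3 + (a * D) * (u * D) ^ 2 + (b * D ^ 2) * (u * D) +
          (c * D ^ 3)
        linear_combination (D ^ 3) * h8
      · have e1 : u * D / D = u := by field_simp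
        have e2 : v * D ^ 2 / D ^ 2 = v := by field_simp
        subst hu hy
        simp only [e1, e2, dif_pos h]
  have hT := finite_two (K := K) (a := a) (b := b) (c := c)
  have hcov : (Set.univ : Set ((cubic a b c)⁄K).Point) ⊆
      ⋃ q ∈ {P | s P = P} ×ˢ {P | s P = -P}, {P | P + s P = q.1 ∧ P - s P = q.2} := by
    intro P _
    rw [Set.mem_iUnion₂]
    refine ⟨(P + s P, P - s P), ⟨?_, ?_⟩, rfl, rfl⟩
    · change s (P + s P) = P + s P
      rw [_root_.map_add, hss, add_comm]
    · change s (P - s P) = -(P - s P)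
      rw [_root_.map_sub, hss, neg_sub]
  have hfin : (Set.univ : Set ((cubic a b c)⁄K).Point).Finite := by
    refine ((hA.prod hB).biUnion fun q _ => ?_).subset hcov
    by_cases hne : ({P | P + s P = q.1 ∧ P - s P = q.2} :
        Set ((cubic a b c)⁄K).Point).Nonempty
    · obtain ⟨P0, hP0⟩ := hne
      refine (hT.image (fun R => R + P0)).subset ?_
      intro P hP
      refine ⟨P - P0, ?_, sub_add_cancel _ _⟩
      change (P - P0) + (P - P0) = 0
      have e1 : P + P = P0 + P0 := by
        have e2 : P + P = (P + s P) + (P - s P) := by abel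
        have e3 : P0 + P0 = (P0 + s P0) + (P0 - s P0) := by abel
        rw [e2, e3, hP.1, hP.2, hP0.1, hP0.2]
      have e4 : (P - P0) + (P - P0) = (P + P) - (P0 + P0) := by abel
      rw [e4, e1, sub_self]
    · rw [Set.not_nonempty_iff_eq_empty.mp hne]
      exact Set.finite_empty
  exact Set.finite_univ_iff.mp hfin

end Pool.Agent.Run7.h293.MD
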